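import Pool.Agent.Helper15.GS.GoalsD
import Pool.Agent.Helper80.HS.CSY
import Pool.Agent.Helper14.RK.TAUP

/-! # Packet GS GCLO: the form `P h` is closed -/

open Complex Metric Set Filter Topology MeasureTheory
open scoped ContDiff ComplexConjugate ComplexOrder Manifold Matrix

namespace Pool.Agent.Helper93.GS

open Pool.Agent.Helper95.Lin Pool.Agent.Helper16.Abund Pool.Agent.Helper92.Orb
  Pool.Agent.Helper10.SP Pool.Agent.Helper95.RK Pool.Agent.Helper57.HS
  Pool.Agent.Helper15.HS Pool.Agent.Helper15.GS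

universe u

/-! ## Relabelling -/

theorem swap24 {n : ℕ} (f : Fin n → Fin n → Fin n → Fin n → ℂ) :
    ∑ i, ∑ j, ∑ m, ∑ l, f i j m l = ∑ i, ∑ j, ∑ m, ∑ l, f i l m j := by
  refine Finset.sum_congr rfl fun i _ => ?_
  calc ∑ j, ∑ m, ∑ l, f i j m l = ∑ m, ∑ j, ∑ l, f i j m l := Finset.sum_comm
    _ = ∑ m, ∑ l, ∑ j, f i j m l := Finset.sum_congr rfl fun m _ => Finset.sum_comm
    _ = ∑ l, ∑ m, ∑ j, f i j m l := Finset.sum_comm

theorem swap13 {n : ℕ} (f : Fin n → Fin n → Fin n → Fin n → ℂ) :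
    ∑ i, ∑ j, ∑ m, ∑ l, f i j m l = ∑ i, ∑ j, ∑ m, ∑ l, f m j i l := by
  calc ∑ i, ∑ j, ∑ m, ∑ l, f i j m l = ∑ j, ∑ i, ∑ m, ∑ l, f i j m l := Finset.sum_comm
    _ = ∑ j, ∑ m, ∑ i, ∑ l, f i j m l := Finset.sum_congr rfl fun j _ => Finset.sum_comm
    _ = ∑ m, ∑ j, ∑ i, ∑ l, f i j m l := Finset.sum_comm

theorem relab {n : ℕ} (K : Matrix (Fin n) (Fin n) ℂ) (X : Fin n → Fin n → Fin n → Fin n → ℂ) :
    ∑ i, ∑ j, ∑ m, ∑ l, K j i * K l m * (X i j m l - X i l m j - X m j i l + X m l i j) =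
      2 * ∑ j, ∑ i, ∑ l, ∑ m, (K j i * K l m - K l i * K j m) * X i j m l := by
  have e0 : ∑ j, ∑ i, ∑ l, ∑ m, (K j i * K l m - K l i * K j m) * X i j m l =
      ∑ i, ∑ j, ∑ m, ∑ l, (K j i * K l m - K l i * K j m) * X i j m l := by
    rw [Finset.sum_comm]
    exact Finset.sum_congr rfl fun i _ => Finset.sum_congr rfl fun j _ => Finset.sum_comm
  have e2 := swap24 (fun i j m l => K j i * K l m * X i l m j)
  have e3 := swap13 (fun i j m l => K j i * K l m * X m j i l)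
  have e4 := swap13 (fun i j m l => K j i * K l m * X m l i j)
  have e5 := swap24 (fun i j m l => K j m * K l i * X i l m j)
  rw [e0]
  simp only [mul_add, mul_sub, sub_mul, Finset.sum_add_distrib, Finset.sum_sub_distrib]
  rw [e2, e3, e4, e5]
  have f1 : ∑ i, ∑ j, ∑ m, ∑ l, K l i * K j m * X i j m l =
      ∑ i, ∑ j, ∑ m, ∑ l, K j m * K l i * X i j m l := by
    simp only [mul_comm (K _ _) (K _ _)]
  have f2 : ∑ i, ∑ j, ∑ m, ∑ l, K l m * K j i * X i j m l =
      ∑ i, ∑ j, ∑ m, ∑ l, K j i * K l m * X i j m l := by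
    refine Finset.sum_congr rfl fun i _ => Finset.sum_congr rfl fun j _ =>
      Finset.sum_congr rfl fun m _ => Finset.sum_congr rfl fun l _ => ?_
    ring
  have f3 : ∑ i, ∑ j, ∑ m, ∑ l, K l i * K j m * X i j m l =
      ∑ i, ∑ j, ∑ m, ∑ l, K j m * K l i * X i j m l := by
    refine Finset.sum_congr rfl fun i _ => Finset.sum_congr rfl fun j _ =>
      Finset.sum_congr rfl fun m _ => Finset.sum_congr rfl fun l _ => ?_
    ring
  rw [f2, f3]
  ring

/-- The sum with the torsion. -/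
theorem core {n : ℕ} (K : Matrix (Fin n) (Fin n) ℂ) (C : Fin n → Matrix (Fin n) (Fin n) ℂ) :
    ∑ i, ∑ j, ∑ m, ∑ l, K j i * K l m * ∑ p, ∑ q, (C i m q - C m i q) *
      (1 : Matrix (Fin n) (Fin n) ℂ)⁻¹ q p * conj (C j l p - C l j p) =
    2 * ∑ j, ∑ i, ∑ l, ∑ m, (K j i * K l m - K l i * K j m) * (C i * (C j)ᴴ) m l := by
  rw [← relab K fun i j m l => (C i * (C j)ᴴ) m l]
  refine Finset.sum_congr rfl fun i _ => Finset.sum_congr rfl fun j _ =>
    Finset.sum_congr rfl fun m _ => Finset.sum_congr rfl fun l _ => ?_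
  congr 1
  have e1 : ∑ p, ∑ q, (C i m q - C m i q) *
      (1 : Matrix (Fin n) (Fin n) ℂ)⁻¹ q p * conj (C j l p - C l j p) =
      ∑ p, (C i m p - C m i p) * conj (C j l p - C l j p) := by
    refine Finset.sum_congr rfl fun p _ => ?_
    rw [inv_one, Finset.sum_eq_single p]
    · rw [Matrix.one_apply_eq, mul_one]
    · intro q _ hq
      rw [Matrix.one_apply_ne hq, mul_zero, zero_mul]
    · intro h
      exact absurd (Finset.mem_univ p) h
  rw [e1]
  simp only [Matrix.mul_apply, Matrix.conjTranspose_apply, Complex.star_def,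
    ← Finset.sum_sub_distrib, ← Finset.sum_add_distrib]
  refine Finset.sum_congr rfl fun p _ => ?_
  rw [map_sub]
  ring

open scoped MatrixOrder in
theorem psd_fac {n : ℕ} {A : Matrix (Fin n) (Fin n) ℂ} (hA : A.PosSemidef) :
    ∃ B : Matrix (Fin n) (Fin n) ℂ, A = Bᴴ * B := by
  obtain ⟨B, hB⟩ := CStarAlgebra.nonneg_iff_eq_star_mul_self.mp hA.nonneg
  rw [Matrix.star_eq_conjTranspose] at hB
  exact ⟨B, hB⟩

/-- Packet GCLO. -/
theorem gclo (hM : S_MCAL) (hW : S_WIRT) (hC : S_CSY) (hPar : S_PARP)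
    (hPUE : S_PUE.{u}) (hD : S_DETI.{u}) (hST : Pool.Agent.Helper15.RK.S_ST2A.{u})
    (hPK : Pool.Agent.Helper15.RK.S_POSK.{u}) : S_GCLO.{u} := by
  intro n T G _ R H h hG P hPhol hPP hPh hinv hnull
  have hTo : IsOpen T := hG.ket.et.isOpen
  have hp := hG.her.posDef
  have hs := hG.her.smooth
  have hd : ∀ x ∈ T, (h x).det ≠ 0 := fun y hy => Pool.Agent.Helper80.HS.posDef_det_ne (hp y hy)
  have hh : ∀ x ∈ T, (h x).IsHermitian := fun y hy => (hp y hy).1
  have hPs : ∀ i j, ContDiffOn ℝ ∞ (fun x => P x i j) T := fun i j =>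
    holo_contDiffOn_real hTo (hPhol i j)
  have hβs : ∀ i j, ContDiffOn ℝ ∞ (fun y => (P y * h y) i j) T := (hM T hTo P h hPs hs).2.1
  have hβh : ∀ y ∈ T, (P y * h y).IsHermitian := by
    intro y hy
    rw [Matrix.IsHermitian, Matrix.conjTranspose_mul, (hh y hy).eq, ← hPh y hy]
  have hpar := fun y hy => hPar T hTo h P hp hs hPhol hPh y hy
  have hB : ∀ y ∈ T, ∀ l, cdM l (fun y => P y * h y) y = Gam h l y * (P y * h y) :=
    fun y hy l => (hpar y hy l).2.1
  have hBb : ∀ y ∈ T, ∀ l, cdbM l (fun y => P y * h y) y = (P y * h y) * (Gam h l y)ᴴ := by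
    intro y hy l
    rw [(Pool.Agent.Helper80.HS.cdM_herm hM hTo (fun y => P y * h y) hβs hβh hy l).2, hB y hy l,
      Matrix.conjTranspose_mul, (hβh y hy).eq]
  have hN : ∀ y ∈ T, ∀ i j, cdbM i (Gam h j) y * (P y * h y) = 0 := by
    intro y hy i j
    rw [← Matrix.mul_assoc, (hpar y hy j).2.2 i, Matrix.mul_assoc]
    ext a b
    rw [Matrix.mul_apply, Matrix.zero_apply, ← neg_eq_zero, ← Finset.sum_neg_distrib]
    have hcs := (hC T hTo h hp hs y hy).1
    refine Eq.trans (Finset.sum_congr rfl fun p _ => ?_) (hnull y hy a b j i)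
    rw [hcs p b j i]
    ring
  have h1 := (hM T hTo h h hs hs).1
  have hGs : ∀ j p q, ContDiffOn ℝ ∞ (fun y => Gam h j y p q) T := by
    intro j
    have h4 := ((hM T hTo h h hs hs).2.2.2.1 hd).1
    exact (hM T hTo (cdM j h) (fun y => (h y)⁻¹) (fun a b => (h1 j a b).1) h4).2.1
  have hGs' : ∀ j p q, ContDiffOn ℝ ∞ (fun y => (Gam h j y)ᴴ p q) T := by
    intro j p q
    exact Complex.conjCLE.contDiff.comp_contDiffOn (hGs j q p)
  have hX : ∀ y ∈ T, ∀ i j m l, cd i (cdb j fun z => (P z * h z) m l) y =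
      (Gam h i y * (P y * h y) * (Gam h j y)ᴴ) m l := by
    intro y hy i j m l
    have a1 : cd i (cdb j fun z => (P z * h z) m l) y =
      (cdM i (cdbM j fun z => P z * h z) y) m l := rfl
    have a2 : P y * h y * (cdbM i (Gam h j) y)ᴴ = 0 := by
      have h2 := congrArg Matrix.conjTranspose (hN y hy i j)
      rw [Matrix.conjTranspose_mul, (hβh y hy).eq, Matrix.conjTranspose_zero] at h2
      exact h2
    rw [a1, (Pool.Agent.Helper80.HS.cdM_congr hTo hy (X := cdbM j fun z => P z * h z)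
      (Y := fun z => (P z * h z) * (Gam h j z)ᴴ) (fun z hz => hBb z hz j) i).1,
      ((hM T hTo (fun z => P z * h z) (fun z => (Gam h j z)ᴴ) hβs (hGs' j)).2.2.1 y hy i).1,
      hB y hy i, ((hM T hTo (Gam h j) (Gam h j) (hGs j) (hGs j)).2.2.1 y hy i).2.2.1, a2, add_zero]
  -- factorization of `β`
  have hfac : ∀ y ∈ T, ∃ B : Matrix (Fin n) (Fin n) ℂ, P y * h y = Bᴴ * B := by
    intro y hy
    have e1 : P y * h y = P y * h y * (P y)ᴴ := by
      rw [Matrix.mul_assoc, ← hPh y hy, ← Matrix.mul_assoc, hPP y hy]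
    have e2 : (P y * h y * (P y)ᴴ).PosSemidef := (hp y hy).posSemidef.mul_mul_conjTranspose_same _
    rw [← e1] at e2
    exact psd_fac e2
  obtain ⟨hd1, hd2, hd3, -, -⟩ := hD T R H hG.ket
  have hE : ∀ y ∈ T, ∀ B : Matrix (Fin n) (Fin n) ℂ, P y * h y = Bᴴ * B →
      2 * Pool.Agent.Helper15.RK.E2 H (fun z => P z * h z) y = (H y).det *
        ∑ i, ∑ j, ∑ m, ∑ l, (H y)⁻¹ j i * (H y)⁻¹ l m *
          ∑ p, ∑ q, ((Gam h i y * Bᴴ) m q - (Gam h m y * Bᴴ) i q) *
            (1 : Matrix (Fin n) (Fin n) ℂ)⁻¹ q p *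
            conj ((Gam h j y * Bᴴ) l p - (Gam h l y * Bᴴ) j p) := by
    intro y hy B hBB
    have := core ((H y)⁻¹) fun i => Gam h i y * Bᴴ
    rw [this, Pool.Agent.Helper15.RK.E2, ← mul_assoc, ← mul_assoc, mul_comm (2 : ℂ)]
    congr 1
    refine Finset.sum_congr rfl fun j _ => Finset.sum_congr rfl fun i _ =>
      Finset.sum_congr rfl fun l _ => Finset.sum_congr rfl fun m _ => ?_
    rw [hX y hy i j m l, hBB, Matrix.conjTranspose_mul, Matrix.conjTranspose_conjTranspose]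
    simp only [Matrix.mul_assoc]
  have hre : ∀ y ∈ T, ∀ B : Matrix (Fin n) (Fin n) ℂ, P y * h y = Bᴴ * B →
      2 * (Pool.Agent.Helper15.RK.E2 H (fun z => P z * h z) y).re = (H y).det.re *
        (∑ i, ∑ j, ∑ m, ∑ l, (H y)⁻¹ j i * (H y)⁻¹ l m *
          ∑ p, ∑ q, ((Gam h i y * Bᴴ) m q - (Gam h m y * Bᴴ) i q) *
            (1 : Matrix (Fin n) (Fin n) ℂ)⁻¹ q p *
            conj ((Gam h j y * Bᴴ) l p - (Gam h l y * Bᴴ) j p)).re := by
    intro y hy B hBB
    have e1 := congrArg Complex.re (hE y hy B hBB)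
    rw [Complex.mul_re, Complex.mul_re, (hd1 y hy).1, zero_mul, sub_zero, Complex.im_ofNat,
      zero_mul, sub_zero, Complex.re_ofNat] at e1
    exact e1
  have hpos : ∀ y ∈ T, 0 ≤ (Pool.Agent.Helper15.RK.E2 H (fun z => P z * h z) y).re := by
    intro y hy
    obtain ⟨B, hBB⟩ := hfac y hy
    have e1 := hre y hy B hBB
    have e2 := (Pool.Agent.Helper14.RK.taup (H y) 1 (fun i m q => (Gam h i y * Bᴴ) m q - (Gam h m y * Bᴴ) i q)
      (hG.ket.posDef y hy) Matrix.PosDef.one).1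
    have e3 := mul_nonneg (hd1 y hy).2.1.le e2
    linarith
  obtain ⟨κ, hκ⟩ := hPUE T R hG.ket.et
  have hst := hST (g := fun z => P z * h z) hG.ket hβh hβs hinv κ hκ
  have hcont : ContinuousOn (fun y => (Pool.Agent.Helper15.RK.E2 H (fun z => P z * h z) y).re)
      T := by
    have c1 : ContinuousOn (fun y => (H y).det) T := by
      have c0 : ContinuousOn (fun y => (((H y).det.re : ℝ) : ℂ)) T :=
        Complex.continuous_ofReal.comp_continuousOn hd2.continuousOn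
      refine c0.congr fun y hy => ?_
      apply Complex.ext
      · simp
      · simp [(hd1 y hy).1]
    have c2 : ∀ i j m l, ContinuousOn (cd i (cdb j fun z => (P z * h z) m l)) T := by
      intro i j m l
      have w1 := ((hW T hTo _ _ (hβs m l) (hβs m l)).1 j).2
      exact ((hW T hTo _ _ w1 w1).1 i).1.continuousOn
    refine Complex.continuous_re.comp_continuousOn (c1.mul ?_)
    refine continuousOn_finsetSum _ fun j _ => continuousOn_finsetSum _ fun i _ =>
      continuousOn_finsetSum _ fun l _ => continuousOn_finsetSum _ fun m _ => ?_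
    exact (((hd3 j i).continuousOn.mul (hd3 l m).continuousOn).sub
      ((hd3 l i).continuousOn.mul (hd3 j m).continuousOn)).mul (c2 i j m l)
  have hzero := hPK hG.ket.et κ hκ _ ⟨hcont, hst.2, hst.1⟩ hpos
  refine ⟨hβs, hβh, ?_⟩
  intro y hy i j l
  obtain ⟨B, hBB⟩ := hfac y hy
  have e1 := hre y hy B hBB
  rw [hzero y hy, mul_zero] at e1
  have e2 := (Pool.Agent.Helper14.RK.taup (H y) 1 (fun i m q => (Gam h i y * Bᴴ) m q - (Gam h m y * Bᴴ) i q)
      (hG.ket.posDef y hy) Matrix.PosDef.one).2 (by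
        rcases mul_eq_zero.1 e1.symm with h0 | h0
        · exact absurd h0 (hd1 y hy).2.1.ne'
        · exact h0)
  have e3 : cd l (fun y => (P y * h y) i j) y = (cdM l (fun y => P y * h y) y) i j := rfl
  have e4 : cd i (fun y => (P y * h y) l j) y = (cdM i (fun y => P y * h y) y) l j := rfl
  rw [e3, e4, hB y hy l, hB y hy i, hBB, ← Matrix.mul_assoc, ← Matrix.mul_assoc,
    Matrix.mul_apply, Matrix.mul_apply]
  refine Finset.sum_congr rfl fun q _ => ?_
  rw [sub_eq_zero.1 (e2 l i q)]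

end Pool.Agent.Helper93.GS
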